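import Pool.Agent.J6H43.KS.Defs
import Pool.Agent.W856.CornerDefs

/-!
# Circuits with `MOD p` gates for separators: definitions

Circuits with AND, OR, NOT and `MOD p` gates of unbounded fan-in, whose input nodes are functions of
degree at most `k` over `Z/p`, are those of `Pool.Agent.W856.CornerDefs`: `Circuit p L k`; their
inputs are vectors `z : V L = Fin L → ZMod 2`.
-/

set_option autoImplicit false

namespace Pool.Agent.J6H12.MS

open Pool.Agent.NPC hiding SAT
open Pool.Agent.W856.Corner Pool.Agent.J6H27.KS Pool.Agent.J6H43.KS Filter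

/-- the bit string with the letters `z 0, z 1, …` -/
def word {L : ℕ} (z : V L) : List Bool := List.ofFn fun i => decide (z i = 1)

/-- Nonuniform quasipolynomial `AC⁰[p]`: decided by circuits of constant depth with AND, OR, NOT
and `MOD p` gates of unbounded fan-in, in which only the AND and OR gates are counted, at most
`2 ^ ((log L) ^ c + c)` of them, and in which all functions of degree at most `(log L) ^ c + c` over
`Z/p` may be used as inputs. -/
def InModP (p : ℕ) (S : Set (List Bool)) : Prop :=
  ∃ d c : ℕ, ∀ L : ℕ, ∃ k ≤ Nat.log 2 L ^ c + c, ∃ C : Circuit p L k,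
    C.andOr.card ≤ 2 ^ (Nat.log 2 L ^ c + c) ∧ (∀ i, C.depth i ≤ d) ∧
      ∃ i, ∀ z, C.val i z = true ↔ word z ∈ S

/-- The strings `word (x h l)`, `l` in the finite set `Λ h`, have a length `L h` between `h` and
`h ^ K` (for all large `h`), and `S` is hard on average on them: for all large `h`, every node of
every circuit of depth at most `d` with less than `2 ^ h` AND and OR gates, any number of `MOD p`
gates and inputs of degree at most `h` over `Z/p` tells for at most the fraction `1/2 + 1/(2h)` of
the `l` correctly whether `word (x h l)` is in `S`. -/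
def HardOn (p d : ℕ) (L : ℕ → ℕ) (Λ : ℕ → Type) (x : ∀ h, Λ h → V (L h))
    (S : Set (List Bool)) : Prop :=
  ∀ᶠ h in atTop, ∀ k ≤ h, ∀ C : Circuit p (L h) k, (∀ i, C.depth i ≤ d) →
    C.andOr.card < 2 ^ h → ∀ i,
      2 * h * Nat.card {l : Λ h // C.val i (x h l) = true ↔ word (x h l) ∈ S} ≤
        (h + 1) * Nat.card (Λ h)

/-- The hardness of the polynomial-time sets which agree with `SAT` on `A`. -/
structure Hard (A : Set (List Bool)) : Prop where
  /-- they are hard on average; the distributions do not depend on the set `S` -/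
  average : ∀ p d : ℕ, p.Prime → ∃ (L : ℕ → ℕ) (Λ : ℕ → Type) (_ : ∀ h, Finite (Λ h))
    (_ : ∀ h, Nonempty (Λ h)) (x : ∀ h, Λ h → V (L h)),
    (∀ᶠ h in atTop, h ≤ L h ∧ L h ≤ h ^ (36 * d + 45)) ∧
      ∀ S : Set (List Bool), InP S → Agree A S → HardOn p d L Λ x S
  /-- they are not in nonuniform quasipolynomial `AC⁰[p]` -/
  modp : ∀ p : ℕ, p.Prime → ∀ S : Set (List Bool), InP S → Agree A S → ¬ InModP p S
  /-- no separator is in nonuniform quasipolynomial `AC⁰[p]` -/
  separator : ∀ p : ℕ, p.Prime →
    ¬ ∃ S : Set (List Bool), InP S ∧ InModP p S ∧ A ∩ SAT ⊆ S ∧ S ∩ SATᶜ = ∅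

end Pool.Agent.J6H12.MS
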