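import Pool.Agent.W856.Corner7

/-!
# Low-degree functions: substitution and the majority function
-/

set_option autoImplicit false
set_option maxHeartbeats 4000000

namespace Pool.Agent.J6H12.MS

open Pool.Agent.W856.Corner Finset

variable {K : Type} [Field K]

/-- Substituting functions of degree one for the coordinates does not raise the degree. -/
theorem LK_comp {L r D : ℕ} (σ : V r → V L) (hσ : ∀ j, (fun y => bit K (σ y) j) ∈ LK K r 1)
    {g : V L → K} (hg : g ∈ LK K L D) : (fun y => g (σ y)) ∈ LK K r D := by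
  let c : (V L → K) →ₗ[K] (V r → K) :=
    { toFun := fun g y => g (σ y)
      map_add' := fun _ _ => rfl
      map_smul' := fun _ _ => rfl }
  have h1 : LK K L D ≤ (LK K r D).comap c := by
    unfold LK
    rw [Submodule.span_le]
    rintro _ ⟨⟨s, hs⟩, rfl⟩
    show c (mon K s) ∈ LK K r D
    have e : c (mon K s) = ∏ i ∈ s, fun y : V r => bit K (σ y) i := by
      funext y
      rw [Finset.prod_apply]
      rfl
    rw [e]
    have h := LK_prod s (fun _ => 1) (fun i y => bit K (σ y) i) (fun i _ => hσ i)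
    refine LK_mono ?_ h
    simpa using hs
  exact h1 hg

/-- Each function on a translate of a Hamming ball is the restriction of a polynomial of degree
at most the radius. -/
theorem exists_ext {r D : ℕ} (a : V r) (φ : V r → K) :
    ∃ g ∈ LK K r D, ∀ z, (sp (z + a)).card ≤ D → g z = φ z := by
  classical
  set B : Finset (V r) := univ.filter fun z => (sp (z + a)).card ≤ D with hB
  have hind := ev_indep (K := K) D a B (fun z hz => by rw [hB, mem_filter] at hz; exact hz.2)
  -- the restriction map is surjective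
  let ρ : LK K r D →ₗ[K] (B → K) := LinearMap.pi fun z : B => ev (K := K) D z.1
  have hsurj : Function.Surjective ρ := by
    rw [← LinearMap.range_eq_top]
    by_contra hne
    obtain ⟨f, hf0, hf⟩ := Submodule.exists_le_ker_of_lt_top (LinearMap.range ρ)
      (lt_top_iff_ne_top.2 hne)
    apply hf0
    have h2 : ∑ z : B, f (Pi.single z 1) • ev (K := K) D z.1 = 0 := by
      ext g
      have h3 : f (ρ g) = 0 := by
        have := hf (LinearMap.mem_range_self ρ g)
        exact this
      have h4 : ρ g = ∑ z : B, (ρ g z) • (Pi.single z (1 : K) : B → K) := by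
        funext w
        simp [Finset.sum_apply, Pi.single_apply]
      rw [h4, map_sum] at h3
      simp only [map_smul, smul_eq_mul] at h3
      rw [LinearMap.sum_apply]
      simp only [LinearMap.smul_apply, smul_eq_mul, LinearMap.zero_apply]
      rw [← h3]
      refine Finset.sum_congr rfl fun z _ => ?_
      rw [mul_comm]
      rfl
    have h5 := Fintype.linearIndependent_iff.1 hind (fun z => f (Pi.single z 1)) h2
    refine LinearMap.pi_ext fun z x => ?_
    have e : (Pi.single z x : B → K) = x • Pi.single z 1 := by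
      rw [← Pi.single_smul, smul_eq_mul, mul_one]
    rw [e, map_smul, h5 z]
    simp
  obtain ⟨g, hg⟩ := hsurj fun z : B => φ z.1
  refine ⟨g.1, g.2, fun z hz => ?_⟩
  have hzB : z ∈ B := by rw [hB, mem_filter]; exact ⟨mem_univ _, hz⟩
  exact congrFun hg ⟨z, hzB⟩

/-- majority -/
def maj {r : ℕ} (q : ℕ) (y : V r) : Bool := decide (q ≤ (sp y).card)

theorem card_sp_add_one {r : ℕ} (z : V r) : (sp (z + 1)).card = r - (sp z).card := by
  have h : sp (z + 1) = (sp z)ᶜ := by
    ext i
    unfold sp
    simp only [mem_filter, mem_univ, true_and, mem_compl, Pi.add_apply, Pi.one_apply]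
    rcases zmod2_c (z i) with h | h <;> rw [h] <;> decide
  rw [h, card_compl, Fintype.card_fin]

/-- Smolensky: functions of small degree do not approximate majority. -/
theorem maj_bound {m D : ℕ} (f : V (2 * m + 1) → Bool) (hf : LB K D f) :
    2 ^ (2 * m + 1) ≤ (univ.filter fun y => f y ≠ maj (m + 1) y).card +
      ∑ i ∈ range (m + D + 1), (2 * m + 1).choose i := by
  classical
  set G : Finset (V (2 * m + 1)) := univ.filter fun y => ¬ (f y ≠ maj (m + 1) y) with hG
  have hcard : (univ.filter fun y => f y ≠ maj (m + 1) y).card + G.card = 2 ^ (2 * m + 1) := by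
    rw [hG, Finset.card_filter_add_card_filter_not, card_univ, Fintype.card_fun, ZMod.card,
      Fintype.card_fin]
  let ρ : LK K (2 * m + 1) (m + D) →ₗ[K] (G → K) :=
    LinearMap.pi fun z : G => ev (K := K) (m + D) z.1
  have hsurj : Function.Surjective ρ := by
    intro φ
    let φ' : V (2 * m + 1) → K := fun z => if h : z ∈ G then φ ⟨z, h⟩ else 0
    obtain ⟨g0, hg0, h0⟩ := exists_ext (D := m) (0 : V (2 * m + 1)) φ'
    obtain ⟨g1, hg1, h1⟩ := exists_ext (D := m) (1 : V (2 * m + 1)) φ'
    have hmem : g0 + (fun y => bi K (f y)) * (g1 - g0) ∈ LK K (2 * m + 1) (m + D) := by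
      refine Submodule.add_mem _ (LK_mono (by omega) hg0) ?_
      rw [add_comm m D]
      exact LK_mul hf (Submodule.sub_mem _ hg1 hg0)
    refine ⟨⟨_, hmem⟩, ?_⟩
    funext z
    show g0 z.1 + bi K (f z.1) * (g1 z.1 - g0 z.1) = φ z
    have hz' : z.1 ∈ univ.filter fun y => ¬ (f y ≠ maj (m + 1) y) := z.2
    have hz : f z.1 = maj (m + 1) z.1 := not_not.1 (mem_filter.1 hz').2
    have e : φ' z.1 = φ z := dif_pos z.2
    rw [hz, ← e]
    have hle : (sp z.1).card ≤ 2 * m + 1 := by
      have := Finset.card_le_univ (sp z.1)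
      simpa using this
    by_cases hm : m + 1 ≤ (sp z.1).card
    · have e1 : maj (m + 1) z.1 = true := by simp [maj, hm]
      rw [e1, h1 z.1 (by rw [card_sp_add_one]; omega)]
      simp [bi]
    · have e1 : maj (m + 1) z.1 = false := by simp [maj, hm]
      rw [e1, h0 z.1 (by rw [add_zero]; omega)]
      simp [bi]
  have h1 := LinearMap.finrank_le_finrank_of_surjective (f := ρ) hsurj
  rw [Module.finrank_fintype_fun_eq_card, Fintype.card_coe] at h1
  have h2 := finrank_LK (K := K) (2 * m + 1) (m + D)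
  omega

/-! ### Binomial coefficients -/

theorem central_sq (m : ℕ) : m.centralBinom ^ 2 * (2 * m + 1) ≤ 16 ^ m := by
  induction m with
  | zero => simp
  | succ m ih =>
    have h := Nat.succ_mul_centralBinom_succ m
    have h2 : (m + 1) ^ 2 * ((m + 1).centralBinom ^ 2 * (2 * (m + 1) + 1)) ≤
        (m + 1) ^ 2 * 16 ^ (m + 1) := by
      calc (m + 1) ^ 2 * ((m + 1).centralBinom ^ 2 * (2 * (m + 1) + 1))
          = ((m + 1) * (m + 1).centralBinom) ^ 2 * (2 * m + 3) := by ring
        _ = (2 * (2 * m + 1) * m.centralBinom) ^ 2 * (2 * m + 3) := by rw [h]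
        _ = (m.centralBinom ^ 2 * (2 * m + 1)) * (4 * ((2 * m + 1) * (2 * m + 3))) := by ring
        _ ≤ 16 ^ m * (4 * (4 * (m + 1) ^ 2)) := by
            refine Nat.mul_le_mul ih ?_
            nlinarith
        _ = (m + 1) ^ 2 * 16 ^ (m + 1) := by ring
    exact Nat.le_of_mul_le_mul_left h2 (by positivity)

theorem choose_sq (m : ℕ) : (2 * m + 1).choose m ^ 2 * (2 * m + 3) ≤ 4 * 16 ^ m := by
  have h := central_sq (m + 1)
  have e : (m + 1).centralBinom = 2 * (2 * m + 1).choose m := by
    rw [Nat.centralBinom_eq_two_mul_choose, show 2 * (m + 1) = (2 * m + 1) + 1 by ring,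
      Nat.choose_succ_succ', Nat.choose_symm_half]
    ring
  rw [e] at h
  have e2 : (2 * (2 * m + 1).choose m) ^ 2 * (2 * (m + 1) + 1) =
      4 * ((2 * m + 1).choose m ^ 2 * (2 * m + 3)) := by ring
  have e3 : 16 ^ (m + 1) = 4 * (4 * 16 ^ m) := by ring
  rw [e2, e3] at h
  omega

theorem sum_le (D : ℕ) : ∑ i ∈ range (8 * D ^ 2 + D + 1), (2 * (8 * D ^ 2) + 1).choose i ≤
    4 ^ (8 * D ^ 2) + 4 ^ (8 * D ^ 2) / 2 := by
  obtain ⟨m, hm⟩ : ∃ m, m = 8 * D ^ 2 := ⟨_, rfl⟩
  rw [← hm]
  have h1 := Nat.sum_range_choose_halfway m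
  have h2 : ∑ i ∈ range (m + D + 1), (2 * m + 1).choose i =
      ∑ i ∈ range (m + 1), (2 * m + 1).choose i +
        ∑ i ∈ range D, (2 * m + 1).choose (m + 1 + i) := by
    rw [show m + D + 1 = (m + 1) + D by ring, Finset.sum_range_add]
  have h3 : ∑ i ∈ range D, (2 * m + 1).choose (m + 1 + i) ≤ D * (2 * m + 1).choose m := by
    calc _ ≤ ∑ _i ∈ range D, (2 * m + 1).choose m := by
          refine Finset.sum_le_sum fun i _ => ?_
          have := Nat.choose_le_middle (m + 1 + i) (2 * m + 1)
          rwa [show (2 * m + 1) / 2 = m by omega] at this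
      _ = _ := by simp
  rw [h2, h1]
  have h4 : 2 * (D * (2 * m + 1).choose m) ≤ 4 ^ m := by
    have h5 := choose_sq m
    have h6 : (2 * (D * (2 * m + 1).choose m)) ^ 2 ≤ (4 ^ m) ^ 2 := by
      have e16 : (16 : ℕ) ^ m = (4 ^ m) ^ 2 := by
        rw [← pow_mul, mul_comm m 2, pow_mul]
        norm_num
      rw [e16] at h5
      have h7 : 16 * D ^ 2 ≤ 2 * m + 3 := by omega
      have h8 : (2 * m + 1).choose m ^ 2 * (16 * D ^ 2) ≤ 4 * (4 ^ m) ^ 2 :=
        (Nat.mul_le_mul_left _ h7).trans h5
      have h9 : (2 * (D * (2 * m + 1).choose m)) ^ 2 =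
        4 * (D ^ 2 * (2 * m + 1).choose m ^ 2) := by ring
      have h10 : (2 * m + 1).choose m ^ 2 * (16 * D ^ 2) =
        16 * (D ^ 2 * (2 * m + 1).choose m ^ 2) := by ring
      rw [h10] at h8
      rw [h9]
      omega
    exact (Nat.pow_le_pow_iff_left (by norm_num)).1 h6
  omega

end Pool.Agent.J6H12.MS
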