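import Pool.Agent.J6H43.KS.Junta

/-!
# Majority as a satisfiability problem
-/

set_option autoImplicit false
set_option maxHeartbeats 4000000

namespace Pool.Agent.J6H12.MS

open Pool.Agent.NPC hiding SAT
open Pool.Agent.H695R2 Pool.Agent.H695R2.IsoImp Pool.Agent.J6H27.KS Pool.Agent.J6H43.KS Turing Filter

/-- conjunction of the first formulas of a sequence -/
def bigAnd (f : ℕ → BF) : ℕ → BF
  | 0 => topF
  | n + 1 => BF.and (f n) (bigAnd f n)

theorem eval_bigAnd (f : ℕ → BF) (σ : ℕ → Bool) (n : ℕ) :
    (bigAnd f n).eval σ = true ↔ ∀ i < n, (f i).eval σ = true := by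
  induction n with
  | zero => simp [bigAnd, eval_topF]
  | succ n ih =>
    simp only [bigAnd, BF.eval, Bool.and_eq_true, ih]
    constructor
    · rintro ⟨h1, h2⟩ i hi
      rcases Nat.lt_succ_iff_lt_or_eq.1 hi with h | h
      · exact h2 i h
      · rw [h, h1]
    · intro h
      exact ⟨h n (Nat.lt_succ_self n), fun i hi => h i (Nat.lt_succ_of_lt hi)⟩

theorem length_bigAnd (f : ℕ → BF) (B n : ℕ) (h : ∀ i < n, (tk (f i).polish).length ≤ B) :
    (tk (bigAnd f n).polish).length ≤ 22 + n * (8 + B) := by
  induction n with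
  | zero =>
    have : (tk topF.polish).length = 22 := rfl
    simp [bigAnd, this]
  | succ n ih =>
    have e1 : (bigAnd f (n + 1)).polish =
        Sum.inl (some true) :: ((f n).polish ++ (bigAnd f n).polish) := rfl
    rw [e1, tk_cons, tk_append, List.length_append, List.length_append]
    have e3 : (true :: bits (Sum.inl (some true) : Option Bool ⊕ ℕ)).length = 8 := rfl
    rw [e3]
    have h1 := ih fun i hi => h i (by omega)
    have h2 := h n (by omega)
    have e4 : (n + 1) * (8 + B) = n * (8 + B) + (8 + B) := by ring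
    omega

/-- the variable expressing that at least `j` of the first `m` variables are true -/
def tv (r m j : ℕ) : ℕ := r + (m * (r + 1) + j)

/-- `t (m + 1, j + 1) → t (m, j + 1) ∨ (x_m ∧ t (m, j))` -/
def cls (r m j : ℕ) : BF :=
  BF.or (BF.neg (BF.var (tv r (m + 1) (j + 1))))
    (BF.or (BF.var (tv r m (j + 1))) (BF.and (BF.var m) (BF.var (tv r m j))))

/-- at least `q` of the first `r` variables are true -/
def thr (r q : ℕ) : BF :=
  BF.and (BF.var (tv r r q)) (BF.and (bigAnd (fun j => BF.neg (BF.var (tv r 0 (j + 1)))) r)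
    (bigAnd (fun m => bigAnd (fun j => cls r m j) r) r))

/-- the number of the first true variables -/
def cnt (α : ℕ → Bool) : ℕ → ℕ
  | 0 => 0
  | m + 1 => cnt α m + if α m = true then 1 else 0

theorem cnt_le (α : ℕ → Bool) (m : ℕ) : cnt α m ≤ m := by
  induction m with
  | zero => simp [cnt]
  | succ m ih => simp only [cnt]; split_ifs <;> omega

theorem eval_cls (σ : ℕ → Bool) (r m j : ℕ) : (cls r m j).eval σ = true ↔
    (σ (tv r (m + 1) (j + 1)) = true →
      σ (tv r m (j + 1)) = true ∨ (σ m = true ∧ σ (tv r m j) = true)) := by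
  simp only [cls, BF.eval]
  cases σ (tv r (m + 1) (j + 1)) <;> cases σ (tv r m (j + 1)) <;> cases σ m <;>
    cases σ (tv r m j) <;> simp

theorem thr_sound {σ : ℕ → Bool} {r q : ℕ} (hq : q ≤ r) (h : (thr r q).eval σ = true) :
    q ≤ cnt σ r := by
  simp only [thr, BF.eval, Bool.and_eq_true, eval_bigAnd, eval_cls] at h
  obtain ⟨h1, h2, h3⟩ := h
  have key : ∀ m ≤ r, ∀ j ≤ r, σ (tv r m j) = true → j ≤ cnt σ m := by
    intro m
    induction m with
    | zero =>
      intro _ j hj hσ
      cases j with
      | zero => omega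
      | succ j =>
        have := h2 j (by omega)
        rw [hσ] at this
        simp at this
    | succ m ih =>
      intro hm j hj hσ
      cases j with
      | zero => omega
      | succ j =>
        simp only [cnt]
        rcases h3 m (by omega) j (by omega) hσ with h4 | ⟨h4, h5⟩
        · have := ih (by omega) (j + 1) hj h4
          omega
        · have := ih (by omega) j (by omega) h5
          rw [if_pos h4]
          omega
  exact key r le_rfl q hq h1

theorem cnt_congr {α β : ℕ → Bool} {m : ℕ} (h : ∀ i < m, α i = β i) : cnt α m = cnt β m := by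
  induction m with
  | zero => rfl
  | succ m ih =>
    simp only [cnt]
    rw [ih fun i hi => h i (by omega), h m (by omega)]

/-- the satisfying assignment -/
def asg (α : ℕ → Bool) (r : ℕ) (n : ℕ) : Bool :=
  if n < r then α n else decide ((n - r) % (r + 1) ≤ cnt α ((n - r) / (r + 1)))

theorem asg_tv (α : ℕ → Bool) (r m j : ℕ) (hj : j ≤ r) :
    asg α r (tv r m j) = decide (j ≤ cnt α m) := by
  unfold asg tv
  have e1 : ¬ (r + (m * (r + 1) + j) < r) := by omega
  have e2 : r + (m * (r + 1) + j) - r = j + m * (r + 1) := by omega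
  rw [if_neg e1, e2, Nat.add_mul_mod_self_right, Nat.add_mul_div_right _ _ (by omega),
    Nat.mod_eq_of_lt (by omega), Nat.div_eq_of_lt (by omega), zero_add]

/-- the code of the formula expressing that at least `q` of `α 0, …, α (r - 1)` are true -/
def mw (α : ℕ → Bool) (r q : ℕ) : List Bool := xw α r ++ bits (thr r q)

theorem mw_mem (α : ℕ → Bool) (r q : ℕ) (hq : q ≤ r) : mw α r q ∈ SAT ↔ q ≤ cnt α r := by
  have h : mw α r q = bits (BF.and (conj α r) (thr r q)) := by
    unfold mw xw
    have h : bits (BF.and (conj α r) (thr r q)) =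
        bits ((Sum.inl (some true) :: (conj α r).polish) ++ (thr r q).polish) := rfl
    rw [h, bits_append]
    rfl
  rw [h]
  refine bits_mem_lang.trans ?_
  constructor
  · rintro ⟨σ, hσ⟩
    rw [BF.eval, Bool.and_eq_true, eval_conj] at hσ
    have h1 := thr_sound hq hσ.2
    rwa [cnt_congr hσ.1] at h1
  · intro hc
    refine ⟨asg α r, ?_⟩
    rw [BF.eval, Bool.and_eq_true, eval_conj]
    refine ⟨fun i hi => by simp [asg, hi], ?_⟩
    simp only [thr, BF.eval, Bool.and_eq_true, eval_bigAnd, eval_cls]
    refine ⟨?_, ?_, ?_⟩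
    · rw [asg_tv _ _ _ _ hq]; simpa using hc
    · intro j hj
      rw [asg_tv _ _ _ _ (by omega)]
      simp [cnt]
    · intro m hm j hj
      rw [asg_tv _ _ _ _ (by omega), asg_tv _ _ _ _ (by omega), asg_tv _ _ _ _ (by omega)]
      have e : asg α r m = α m := by simp [asg, hm]
      rw [e]
      simp only [decide_eq_true_eq]
      intro h2
      have e2 : cnt α (m + 1) = cnt α m + if α m = true then 1 else 0 := rfl
      by_cases h1 : α m = true
      · rw [e2, if_pos h1] at h2
        exact Or.inr ⟨h1, by omega⟩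
      · rw [e2, if_neg h1] at h2
        exact Or.inl (by omega)

/-! ### Lengths -/

theorem sz_le (n : ℕ) : sz n ≤ 4 * n + 1 := by
  have f1 := sz_nat_le n
  have f2 := Poly.size_le_self n
  omega

theorem tv_le {r m j : ℕ} (hm : m ≤ r) (hj : j ≤ r) : tv r m j ≤ (r + 2) * (r + 2) := by
  unfold tv
  nlinarith [Nat.mul_le_mul_right (r + 1) hm]

theorem length_cls (r m j : ℕ) (hm : m < r) (hj : j < r) :
    (tk (cls r m j).polish).length ≤ 100 + 16 * ((r + 2) * (r + 2)) := by
  have e : (tk (cls r m j).polish).length = 44 + sz (tv r (m + 1) (j + 1)) +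
      sz (tv r m (j + 1)) + sz m + sz (tv r m j) := by
    simp [cls, BF.polish, tk, bits_length]
    ring
  have h1 := sz_le (tv r (m + 1) (j + 1))
  have h2 := sz_le (tv r m (j + 1))
  have h3 := sz_le m
  have h4 := sz_le (tv r m j)
  have g1 := tv_le (r := r) (m := m + 1) (j := j + 1) (by omega) (by omega)
  have g2 := tv_le (r := r) (m := m) (j := j + 1) (by omega) (by omega)
  have g4 := tv_le (r := r) (m := m) (j := j) (by omega) (by omega)
  have g3 : m ≤ (r + 2) * (r + 2) := by nlinarith
  rw [e]
  omega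

/-- the length of `mw α r q` -/
def PM (r q : ℕ) : ℕ := 8 + cl r + (bits (thr r q)).length

theorem length_mw (α : ℕ → Bool) (r q : ℕ) : (mw α r q).length = PM r q := by
  unfold mw PM
  rw [List.length_append, length_xw]

theorem le_PM (r q : ℕ) : r ≤ PM r q := by
  unfold PM
  have := le_cl r
  omega

theorem PM_le {r q : ℕ} (hr : 1 ≤ r) (hq : q ≤ r) : PM r q ≤ 2000 * r ^ 4 := by
  have h := bits_append (thr r q).polish []
  rw [List.append_nil] at h
  have h2 : bits (thr r q) = bits (thr r q).polish := rfl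
  have h3 : (bits (thr r q)).length = (tk (thr r q).polish).length + 1 := by
    rw [h2, h, List.length_append]
    rfl
  set W := (r + 2) * (r + 2) with hW
  have l1 := length_bigAnd (fun j => BF.neg (BF.var (tv r 0 (j + 1)))) (20 + 4 * W) r (by
    intro i hi
    have e : (tk (BF.neg (BF.var (tv r 0 (i + 1)))).polish).length =
        9 + sz (tv r 0 (i + 1)) := by
      simp [BF.polish, tk, bits_length]
      ring
    have f1 := sz_le (tv r 0 (i + 1))
    have f2 := tv_le (r := r) (m := 0) (j := i + 1) (by omega) (by omega)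
    rw [e]
    omega)
  have l2 := length_bigAnd (fun m => bigAnd (fun j => cls r m j) r)
    (22 + r * (8 + (100 + 16 * W))) r (by
    intro m hm
    exact length_bigAnd _ _ _ fun j hj => length_cls r m j hm hj)
  have l3 : (tk (thr r q).polish).length = 21 + sz (tv r r q) +
      (tk (bigAnd (fun j => BF.neg (BF.var (tv r 0 (j + 1)))) r).polish).length +
      (tk (bigAnd (fun m => bigAnd (fun j => cls r m j) r) r).polish).length := by
    have e1 : (thr r q).polish = Sum.inl (some true) :: (Sum.inr (tv r r q) ::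
        (Sum.inl (some true) ::
        ((bigAnd (fun j => BF.neg (BF.var (tv r 0 (j + 1)))) r).polish ++
          (bigAnd (fun m => bigAnd (fun j => cls r m j) r) r).polish))) := rfl
    rw [e1, tk_cons, tk_cons, tk_cons, tk_append]
    simp [bits_length]
    ring
  have f1 := sz_le (tv r r q)
  have f2 := tv_le (r := r) (m := r) (j := q) le_rfl hq
  have h5 := cl_le r
  unfold PM
  rw [h3, l3]
  have hW9 : W ≤ 9 * r ^ 2 := by rw [hW]; nlinarith
  have r2 : 1 ≤ r ^ 2 := Nat.one_le_pow _ _ hr
  have r24 : r ^ 2 ≤ r ^ 4 := Nat.pow_le_pow_right hr (by norm_num)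
  have r34 : r ^ 3 ≤ r ^ 4 := Nat.pow_le_pow_right hr (by norm_num)
  have r14 : r ≤ r ^ 4 := by
    calc r = r ^ 1 := (pow_one r).symm
      _ ≤ r ^ 4 := Nat.pow_le_pow_right hr (by norm_num)
  have g1 : r * (8 + (20 + 4 * W)) ≤ 64 * r ^ 4 := by
    calc r * (8 + (20 + 4 * W)) ≤ r * (28 * r ^ 2 + 36 * r ^ 2) :=
          Nat.mul_le_mul_left _ (by omega)
      _ = 64 * r ^ 3 := by ring
      _ ≤ 64 * r ^ 4 := Nat.mul_le_mul_left _ r34
  have g2 : r * (8 + (22 + r * (8 + (100 + 16 * W)))) ≤ 282 * r ^ 4 := by
    calc r * (8 + (22 + r * (8 + (100 + 16 * W)))) ≤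
        r * (30 * r ^ 3 + r * (108 * r ^ 2 + 144 * r ^ 2)) := by
          refine Nat.mul_le_mul_left _ ?_
          have a1 : 1 ≤ r ^ 3 := Nat.one_le_pow _ _ hr
          have a2 : r * (8 + (100 + 16 * W)) ≤ r * (108 * r ^ 2 + 144 * r ^ 2) :=
            Nat.mul_le_mul_left _ (by omega)
          omega
      _ = 282 * r ^ 4 := by ring
  have g3 : r * r ≤ r ^ 4 := by
    calc r * r = r ^ 2 := by ring
      _ ≤ r ^ 4 := r24
  have g4 : 1 ≤ r ^ 4 := Nat.one_le_pow _ _ hr
  omega

/-! ### Each bit depends on one variable -/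

theorem J1_mw (r q : ℕ) : J1 (fun w : Fin r → Bool => mw (ext w) r q) := by
  have h1 := (J1.const (I := Fin r) (true :: bits (Sum.inl (some true) : Option Bool ⊕ ℕ))).append
    (J1_conj r le_rfl)
  have h2 := h1.append (J1.const (bits (thr r q)))
  have e : (fun w : Fin r → Bool => mw (ext w) r q) = fun w : Fin r → Bool =>
      ((true :: bits (Sum.inl (some true) : Option Bool ⊕ ℕ)) ++ tk (conj (ext w) r).polish) ++
        bits (thr r q) := by
    funext w
    unfold mw xw
    rw [tk_cons]
  rw [e]
  exact h2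

theorem J1_pad_mw (r q : ℕ) : J1 (fun w : Fin r → Bool => padD (mw (ext w) r q)) := by
  have h := (J1.const (I := Fin r) (negs (D (PM r q)))).append (J1_mw r q)
  have e : (fun w : Fin r → Bool => padD (mw (ext w) r q)) = fun w : Fin r → Bool =>
      negs (D (PM r q)) ++ mw (ext w) r q := by
    funext w
    unfold padD
    rw [length_mw]
  rw [e]
  exact h

end Pool.Agent.J6H12.MS
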