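import Pool.Agent.J6H12.MS.Main

/-!
# Separators are hard on average for circuits with `MOD p` gates
-/

set_option autoImplicit false
set_option maxHeartbeats 400000

namespace Pool.Agent.J6H12.MS

open Pool.Agent.NPC hiding SAT
open Pool.Agent.W856.Corner
open Pool.Agent.J6H27.KS Pool.Agent.J6H43.KS Filter

/-- the degree -/
def DD (p d h : ℕ) : ℕ := h * ((p - 1) * (2 * h + 2)) ^ d

/-- half of the number of variables -/
def mm (p d h : ℕ) : ℕ := 8 * (h * DD p d h) ^ 2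

theorem DD_ge {p d h : ℕ} (hp : 2 ≤ p) : h ≤ DD p d h := by
  unfold DD
  have h1 : 1 ≤ (p - 1) * (2 * h + 2) := Nat.mul_pos (by omega) (by omega)
  exact Nat.le_mul_of_pos_right _ (Nat.pow_pos h1)

theorem DD_le {p d h : ℕ} (hh : 4 * p ≤ h) : DD p d h ≤ h ^ (2 * d + 1) := by
  unfold DD
  have h1 : (p - 1) * (2 * h + 2) ≤ h ^ 2 := by
    rcases Nat.eq_zero_or_pos p with h0 | h0
    · simp [h0]
    · obtain ⟨q, rfl⟩ : ∃ q, p = q + 1 := ⟨p - 1, by omega⟩
      rw [Nat.add_sub_cancel]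
      nlinarith
  calc h * ((p - 1) * (2 * h + 2)) ^ d ≤ h * (h ^ 2) ^ d :=
        Nat.mul_le_mul_left _ (Nat.pow_le_pow_left h1 d)
    _ = h ^ (2 * d + 1) := by rw [← pow_mul]; ring

theorem le_sq_mm {p d h : ℕ} (hp : 2 ≤ p) : h ≤ mm p d h := by
  have h0 : h ≤ DD p d h := DD_ge hp
  unfold mm
  rcases Nat.eq_zero_or_pos h with h1 | h1
  · omega
  · have h2 : h ≤ h * DD p d h := Nat.le_mul_of_pos_right _ (by omega)
    nlinarith

theorem LM_le {p d h : ℕ} (hp : 2 ≤ p) (hh : 4 * p + 36000000 ≤ h) :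
    LM (2 * mm p d h + 1) (mm p d h + 1) ≤ h ^ (36 * d + 45) := by
  set r := 2 * mm p d h + 1 with hr
  have h1 : DD p d h ≤ h ^ (2 * d + 1) := DD_le (by omega)
  have hrh : h ≤ r := by
    have := le_sq_mm (p := p) (d := d) (h := h) hp
    omega
  have hr1 : r ≤ h ^ (4 * d + 5) := by
    have e1 : (h * DD p d h) ^ 2 ≤ h ^ (4 * d + 4) := by
      calc (h * DD p d h) ^ 2 ≤ (h * h ^ (2 * d + 1)) ^ 2 :=
            Nat.pow_le_pow_left (Nat.mul_le_mul_left _ h1) 2
        _ = h ^ (4 * d + 4) := by ring_nf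
    have e2 : 1 ≤ h ^ (4 * d + 4) := Nat.one_le_pow _ _ (by omega)
    calc r = 16 * (h * DD p d h) ^ 2 + 1 := by rw [hr]; unfold mm; ring
      _ ≤ 17 * h ^ (4 * d + 4) := by omega
      _ ≤ h * h ^ (4 * d + 4) := Nat.mul_le_mul_right _ (by omega)
      _ = h ^ (4 * d + 5) := by ring
  have hq : mm p d h + 1 ≤ r := by omega
  have hP := PM_le (r := r) (q := mm p d h + 1) (by omega) hq
  have hP2 : 2 ≤ PM r (mm p d h + 1) := by
    have := le_PM r (mm p d h + 1)
    omega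
  have hD := D_le hP2
  have hPP : PM r (mm p d h + 1) ≤ PM r (mm p d h + 1) ^ 2 := by nlinarith
  unfold LM
  calc 8 * Pool.Agent.J6H43.KS.D (PM r (mm p d h + 1)) + PM r (mm p d h + 1)
      ≤ 9 * PM r (mm p d h + 1) ^ 2 := by omega
    _ ≤ 9 * (2000 * r ^ 4) ^ 2 := Nat.mul_le_mul_left _ (Nat.pow_le_pow_left hP 2)
    _ = 36000000 * r ^ 8 := by ring
    _ ≤ r * r ^ 8 := Nat.mul_le_mul_right _ (by omega)
    _ = r ^ 9 := by ring
    _ ≤ (h ^ (4 * d + 5)) ^ 9 := Nat.pow_le_pow_left hr1 9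
    _ = h ^ (36 * d + 45) := by rw [← pow_mul]; ring_nf

theorem le_PMm {p d h : ℕ} (hp : 2 ≤ p) : h ≤ PM (2 * mm p d h + 1) (mm p d h + 1) := by
  have h0 := le_sq_mm (p := p) (d := d) (h := h) hp
  have h1 := le_PM (2 * mm p d h + 1) (mm p d h + 1)
  omega

theorem word_mem {S : Set (List Bool)} {r q : ℕ} (hq : q ≤ r)
    (hS : ∀ x : List Bool, x.length = PM r q → (padD x ∈ S ↔ x ∈ SAT)) (y : V r) :
    word (proj r q y) ∈ S ↔ q ≤ (sp y).card := by
  rw [word_proj, cw, hS _ (length_mw _ _ _), mw_mem _ _ _ hq, cnt_eq]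

theorem hardOn {S : Set (List Bool)}
    (hS : ∀ᶠ n in atTop, ∀ x : List Bool, x.length = n → (padD x ∈ S ↔ x ∈ SAT))
    (p : ℕ) (hpp : p.Prime) (d : ℕ) :
    HardOn p d (fun h => LM (2 * mm p d h + 1) (mm p d h + 1)) (fun h => V (2 * mm p d h + 1))
      (fun h => proj (2 * mm p d h + 1) (mm p d h + 1)) S := by
  have : Fact p.Prime := ⟨hpp⟩
  have hp := hpp.two_le
  obtain ⟨n₀, h₀⟩ := eventually_atTop.1 hS
  unfold HardOn
  filter_upwards [eventually_ge_atTop n₀] with h hh k hk C hd hs i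
  have hlen := le_PMm (p := p) (d := d) (h := h) hp
  have hDk : k * ((p - 1) * (2 * h + 2)) ^ d ≤ DD p d h := Nat.mul_le_mul_right _ hk
  have hmain := agree_le (h := h) (D := DD p d h) C hd i
    (proj (2 * mm p d h + 1) (mm p d h + 1)) (fun j => proj_LK _ _ j) hDk hs
  have hcard : Nat.card {l : V (2 * mm p d h + 1) //
      C.val i (proj (2 * mm p d h + 1) (mm p d h + 1) l) = true ↔
        word (proj (2 * mm p d h + 1) (mm p d h + 1) l) ∈ S} =
      (Finset.univ.filter fun y : V (2 * (8 * (h * DD p d h) ^ 2) + 1) =>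
        C.val i (proj (2 * mm p d h + 1) (mm p d h + 1) y) =
          maj (8 * (h * DD p d h) ^ 2 + 1) y).card := by
    have hiff : ∀ y : V (2 * (8 * (h * DD p d h) ^ 2) + 1),
        (C.val i (proj (2 * mm p d h + 1) (mm p d h + 1) y) = true ↔
          word (proj (2 * mm p d h + 1) (mm p d h + 1) y) ∈ S) ↔
        C.val i (proj (2 * mm p d h + 1) (mm p d h + 1) y) =
          maj (8 * (h * DD p d h) ^ 2 + 1) y := by
      intro y
      have e1 := word_mem (r := 2 * mm p d h + 1) (q := mm p d h + 1) (by omega)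
        (fun x hx => h₀ _ (by omega) x hx) y
      have e2 : maj (8 * (h * DD p d h) ^ 2 + 1) y = true ↔ mm p d h + 1 ≤ (sp y).card := by
        simp [maj, mm]
      exact (iff_congr Iff.rfl (e1.trans e2.symm)).trans Bool.eq_iff_iff.symm
    exact (Nat.card_congr (Equiv.subtypeEquivRight hiff)).trans
      ((Nat.card_eq_fintype_card).trans (Fintype.card_subtype _))
  have hV : Nat.card (V (2 * mm p d h + 1)) = 2 * 4 ^ (8 * (h * DD p d h) ^ 2) := by
    rw [Nat.card_eq_fintype_card, Fintype.card_fun, ZMod.card, Fintype.card_fin, pow_succ,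
      pow_mul]
    unfold mm
    ring
  rw [hcard, hV]
  calc 2 * h * (Finset.univ.filter fun y : V (2 * (8 * (h * DD p d h) ^ 2) + 1) =>
        C.val i (proj (2 * mm p d h + 1) (mm p d h + 1) y) =
          maj (8 * (h * DD p d h) ^ 2 + 1) y).card
      = 2 * (h * (Finset.univ.filter fun y : V (2 * (8 * (h * DD p d h) ^ 2) + 1) =>
        C.val i (proj (2 * mm p d h + 1) (mm p d h + 1) y) =
          maj (8 * (h * DD p d h) ^ 2 + 1) y).card) := by ring
    _ ≤ 2 * ((h + 1) * 4 ^ (8 * (h * DD p d h) ^ 2)) := Nat.mul_le_mul_left _ hmain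
    _ = (h + 1) * (2 * 4 ^ (8 * (h * DD p d h) ^ 2)) := by ring

/-! ### Classes -/

theorem log_small (K c : ℕ) : ∀ᶠ h : ℕ in atTop, ∀ L ≤ h ^ K, Nat.log 2 L ^ c + c < h := by
  have ht : Tendsto (fun h : ℕ => Nat.log 2 h) atTop atTop := by
    refine tendsto_atTop_atTop.2 fun b => ⟨2 ^ b, fun a ha => ?_⟩
    exact Nat.le_log_of_pow_le (by norm_num) ha
  filter_upwards [ht.eventually (pow_le_two_pow (2 * c + 1)),
    ht.eventually_ge_atTop (2 * K + c + 2), eventually_ge_atTop 1] with h h1 h2 h3 L hL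
  set l := Nat.log 2 h with hl
  have h4 : Nat.log 2 L ≤ K * (l + 1) := by
    refine (Nat.log_mono_right hL).trans ?_
    have h5 : h ^ K ≤ 2 ^ (K * (l + 1)) := by
      rw [mul_comm, pow_mul]
      exact Nat.pow_le_pow_left (Nat.lt_pow_succ_log_self (by norm_num) h).le K
    refine (Nat.log_mono_right h5).trans ?_
    rw [Nat.log_pow (by norm_num)]
  have h6 : K * (l + 1) ≤ l ^ 2 := by nlinarith
  have h7 : Nat.log 2 L ^ c ≤ l ^ (2 * c) := by
    calc Nat.log 2 L ^ c ≤ (l ^ 2) ^ c := Nat.pow_le_pow_left (h4.trans h6) c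
      _ = l ^ (2 * c) := by rw [← pow_mul]
  have h8 : 1 ≤ l ^ (2 * c) := Nat.one_le_pow _ _ (by omega)
  have h9 : 2 ^ l ≤ h := Nat.pow_log_le_self 2 (by omega)
  calc Nat.log 2 L ^ c + c ≤ l ^ (2 * c) * (c + 1) := by nlinarith
    _ < l ^ (2 * c) * l := Nat.mul_lt_mul_of_pos_left (by omega) (by omega)
    _ = l ^ (2 * c + 1) := by ring
    _ ≤ 2 ^ l := h1
    _ ≤ h := h9

theorem not_inModP {S : Set (List Bool)}
    (hS : ∀ᶠ n in atTop, ∀ x : List Bool, x.length = n → (padD x ∈ S ↔ x ∈ SAT))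
    (p : ℕ) (hp : p.Prime) : ¬ InModP p S := by
  rintro ⟨d, c, hdc⟩
  obtain ⟨h, ⟨h1, h2⟩, h3⟩ := (((hardOn hS p hp d).and (log_small (36 * d + 45) c)).and
    (eventually_ge_atTop (4 * p + 36000000))).exists
  obtain ⟨k, hk, C, hC, hd, i, hi⟩ := hdc (LM (2 * mm p d h + 1) (mm p d h + 1))
  have h6 := h2 _ (LM_le hp.two_le h3)
  have h7 := h1 k (by omega) C hd (lt_of_le_of_lt hC (Nat.pow_lt_pow_right (by norm_num) h6)) i
  have h8 : Nat.card {l : V (2 * mm p d h + 1) //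
      C.val i (proj (2 * mm p d h + 1) (mm p d h + 1) l) = true ↔
        word (proj (2 * mm p d h + 1) (mm p d h + 1) l) ∈ S} =
      Nat.card (V (2 * mm p d h + 1)) :=
    Nat.card_congr (Equiv.subtypeUnivEquiv fun l => hi _)
  rw [h8] at h7
  have h9 : 0 < Nat.card (V (2 * mm p d h + 1)) := Nat.card_pos
  nlinarith

theorem hard {U : Mach} {c : ℕ}
    (hU : ∀ M : Mach, ∃ (code : List Bool → List Bool) (d : ℕ) (q : Polynomial ℕ),
      (∀ y, (code y).length ≤ c * y.length + d) ∧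
      ∀ y x t, M.Outputs y x t → U.Outputs (code y) x (q.eval (y.length + t)))
    {g G : ℕ → ℕ}
    (hg : ∀ᶠ n in atTop, (4 * c + 1) * Nat.log 2 (Nat.log 2 (Nat.log 2 n)) ≤ g n)
    (hG : ∀ k : ℕ, ∀ᶠ n in atTop, n ^ k ≤ G n) : Hard (K U g G) := by
  have key : ∀ S : Set (List Bool), InP S → Agree (K U g G) S →
      ∀ᶠ n in atTop, ∀ x : List Bool, x.length = n → (padD x ∈ S ↔ x ∈ SAT) :=
    fun S hS hA => agree_padD (agree_pad hU hg hG hS hA)
  refine ⟨fun p d hp => ?_, fun p hp S hS hA => not_inModP (key S hS hA) p hp, ?_⟩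
  · refine ⟨fun h => LM (2 * mm p d h + 1) (mm p d h + 1), fun h => V (2 * mm p d h + 1),
      fun h => inferInstance, fun h => inferInstance,
      fun h => proj (2 * mm p d h + 1) (mm p d h + 1), ?_,
      fun S hS hA => hardOn (key S hS hA) p hp d⟩
    filter_upwards [eventually_ge_atTop (4 * p + 36000000)] with h hh
    have h1 := le_PMm (p := p) (d := d) (h := h) hp.two_le
    refine ⟨?_, LM_le hp.two_le hh⟩
    unfold LM
    omega
  · rintro p hp ⟨S, hS, hM, h1, h2⟩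
    exact not_inModP (key S hS (agree_of_sep h1 h2)) p hp hM

end Pool.Agent.J6H12.MS
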