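import Pool.Agent.J6H12.MS.Defs
import Pool.Agent.J6H12.MS.Enc
import Pool.Agent.J6H12.MS.Deg
import Pool.Agent.J6H43.KS.Final

/-!
# Circuits with `MOD p` gates for the separators
-/

set_option autoImplicit false
set_option maxHeartbeats 400000

namespace Pool.Agent.J6H12.MS

open Pool.Agent.W856.Corner Finset
open Pool.Agent.J6H27.KS Pool.Agent.J6H43.KS Filter
open H568R2 (Junta DepOn)

/-! ### Approximation -/

theorem exists_approx {p : ℕ} [Fact p.Prime] {L k d : ℕ} (C : Circuit p L k)
    (hd : ∀ i, C.depth i ≤ d) (i : Fin C.N) {r : ℕ} (σ : V r → V L)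
    (hσ : ∀ j, (fun y => bit (ZMod p) (σ y) j) ∈ LK (ZMod p) r 1) {t : ℕ} (ht : 1 ≤ t) :
    ∃ f : V r → Bool, LB (ZMod p) (k * ((p - 1) * t) ^ d) f ∧
      (univ.filter fun y => f y ≠ C.val i (σ y)).card * 2 ^ t ≤ C.andOr.card * 2 ^ r := by
  classical
  have hp := (Fact.out : p.Prime).two_le
  have hQ : 1 ≤ (p - 1) * t := Nat.mul_pos (by omega) ht
  obtain ⟨P, hP, hE⟩ := approx C t ht
  have hne : (univ : Finset (Om p C.N t)).Nonempty := ⟨fun _ _ => 0, mem_univ _⟩
  obtain ⟨w, _, hw⟩ := Finset.exists_le_of_sum_le hne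
    (f := fun w => (univ.filter fun y : V r => P w i (σ y) ≠ C.val i (σ y)).card * 2 ^ t)
    (g := fun _ => C.andOr.card * 2 ^ r) (by
      calc ∑ w : Om p C.N t, (univ.filter fun y : V r => P w i (σ y) ≠ C.val i (σ y)).card * 2 ^ t
          = ∑ y : V r, (univ.filter fun w : Om p C.N t => P w i (σ y) ≠ C.val i (σ y)).card *
              2 ^ t := by
            rw [← Finset.sum_mul, ← Finset.sum_mul]
            congr 1
            simp only [Finset.card_filter]
            exact Finset.sum_comm
        _ ≤ ∑ _y : V r, C.andOr.card * Fintype.card (Om p C.N t) := by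
            refine Finset.sum_le_sum fun y _ => (Nat.mul_le_mul_right _ ?_).trans (hE (σ y))
            rw [Nat.card_eq_fintype_card, Fintype.card_subtype]
            refine Finset.card_le_card fun w hw => ?_
            rw [mem_filter] at hw ⊢
            exact ⟨mem_univ _, i, hw.2⟩
        _ = ∑ _w : Om p C.N t, C.andOr.card * 2 ^ r := by
            rw [Finset.sum_const, Finset.sum_const, card_univ, card_univ, Fintype.card_fun,
              ZMod.card, Fintype.card_fin, smul_eq_mul, smul_eq_mul]
            ring)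
  refine ⟨fun y => P w i (σ y), ?_, hw⟩
  have h1 : LB (ZMod p) (k * ((p - 1) * t) ^ d) (P w i) :=
    LB_mono (Nat.mul_le_mul_left _ (Nat.pow_le_pow_right hQ (hd i))) (hP w i)
  exact LK_comp σ hσ h1

theorem choose_le (E : ℕ) :
    2 * (E * (2 * (8 * E ^ 2) + 1).choose (8 * E ^ 2)) ≤ 4 ^ (8 * E ^ 2) := by
  obtain ⟨m, hm⟩ : ∃ m, m = 8 * E ^ 2 := ⟨_, rfl⟩
  rw [← hm]
  have h5 := choose_sq m
  have h6 : (2 * (E * (2 * m + 1).choose m)) ^ 2 ≤ (4 ^ m) ^ 2 := by
    have e16 : (16 : ℕ) ^ m = (4 ^ m) ^ 2 := by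
      rw [← pow_mul, mul_comm m 2, pow_mul]
      norm_num
    rw [e16] at h5
    have h7 : 16 * E ^ 2 ≤ 2 * m + 3 := by omega
    have h8 : (2 * m + 1).choose m ^ 2 * (16 * E ^ 2) ≤ 4 * (4 ^ m) ^ 2 :=
      (Nat.mul_le_mul_left _ h7).trans h5
    have h9 : (2 * (E * (2 * m + 1).choose m)) ^ 2 =
      4 * (E ^ 2 * (2 * m + 1).choose m ^ 2) := by ring
    have h10 : (2 * m + 1).choose m ^ 2 * (16 * E ^ 2) =
      16 * (E ^ 2 * (2 * m + 1).choose m ^ 2) := by ring
    rw [h10] at h8
    rw [h9]
    omega
  exact (Nat.pow_le_pow_iff_left (by norm_num)).1 h6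

theorem sum_choose_le (m D : ℕ) : ∑ i ∈ range (m + D + 1), (2 * m + 1).choose i ≤
    4 ^ m + D * (2 * m + 1).choose m := by
  have h1 := Nat.sum_range_choose_halfway m
  rw [show m + D + 1 = (m + 1) + D by ring, Finset.sum_range_add, h1]
  refine Nat.add_le_add_left ?_ _
  calc ∑ i ∈ range D, (2 * m + 1).choose (m + 1 + i)
      ≤ ∑ _i ∈ range D, (2 * m + 1).choose m := by
        refine Finset.sum_le_sum fun i _ => ?_
        have := Nat.choose_le_middle (m + 1 + i) (2 * m + 1)
        rwa [show (2 * m + 1) / 2 = m by omega] at this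
    _ = _ := by simp

/-- Circuits with few AND and OR gates hardly agree with majority. -/
theorem agree_le {p : ℕ} [Fact p.Prime] {L k d h D : ℕ} (C : Circuit p L k)
    (hd : ∀ i, C.depth i ≤ d) (i : Fin C.N)
    (σ : V (2 * (8 * (h * D) ^ 2) + 1) → V L)
    (hσ : ∀ j, (fun y => bit (ZMod p) (σ y) j) ∈ LK (ZMod p) (2 * (8 * (h * D) ^ 2) + 1) 1)
    (hD : k * ((p - 1) * (2 * h + 2)) ^ d ≤ D) (hs : C.andOr.card < 2 ^ h) :
    h * (univ.filter fun y => C.val i (σ y) = maj (8 * (h * D) ^ 2 + 1) y).card ≤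
      (h + 1) * 4 ^ (8 * (h * D) ^ 2) := by
  classical
  obtain ⟨f, hf, hE⟩ := exists_approx C hd i σ hσ (t := 2 * h + 2) (by omega)
  have h1 := maj_bound f (LB_mono hD hf)
  have h2 := sum_choose_le (8 * (h * D) ^ 2) D
  have h3 := choose_le (h * D)
  have h6 : 2 ^ (2 * (8 * (h * D) ^ 2) + 1) = 2 * 4 ^ (8 * (h * D) ^ 2) := by
    rw [pow_succ, pow_mul]
    ring
  have hpart := Finset.card_filter_add_card_filter_not
    (s := (univ : Finset (V (2 * (8 * (h * D) ^ 2) + 1))))
    (fun y => f y ≠ maj (8 * (h * D) ^ 2 + 1) y)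
  rw [card_univ, Fintype.card_fun, ZMod.card, Fintype.card_fin, h6] at hpart
  have hsub : (univ.filter fun y => C.val i (σ y) = maj (8 * (h * D) ^ 2 + 1) y).card ≤
      (univ.filter fun y => ¬ (f y ≠ maj (8 * (h * D) ^ 2 + 1) y)).card +
        (univ.filter fun y => f y ≠ C.val i (σ y)).card := by
    refine (Finset.card_le_card fun y hy => ?_).trans (Finset.card_union_le _ _)
    rw [mem_filter] at hy
    rw [mem_union, mem_filter, mem_filter]
    by_cases h : f y = C.val i (σ y)
    · left
      exact ⟨mem_univ _, not_not.2 (h.trans hy.2)⟩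
    · right
      exact ⟨mem_univ _, h⟩
  rw [h6] at h1 hE
  generalize (univ.filter fun y => f y ≠ maj (8 * (h * D) ^ 2 + 1) y).card = err at *
  generalize (univ.filter fun y => ¬ (f y ≠ maj (8 * (h * D) ^ 2 + 1) y)).card = G at *
  generalize (univ.filter fun y => f y ≠ C.val i (σ y)).card = B at *
  generalize (univ.filter fun y => C.val i (σ y) = maj (8 * (h * D) ^ 2 + 1) y).card = A at *
  generalize (2 * (8 * (h * D) ^ 2) + 1).choose (8 * (h * D) ^ 2) = c at *
  generalize ∑ i ∈ range (8 * (h * D) ^ 2 + D + 1), (2 * (8 * (h * D) ^ 2) + 1).choose i = sm at *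
  generalize 4 ^ (8 * (h * D) ^ 2) = M at *
  have hB : 2 * h * B ≤ M := by
    have e1 : B * 2 ^ (h + 1) * 2 ^ (h + 1) ≤ M * 2 ^ (h + 1) := by
      calc B * 2 ^ (h + 1) * 2 ^ (h + 1) = B * 2 ^ (2 * h + 2) := by ring
        _ ≤ C.andOr.card * (2 * M) := hE
        _ ≤ 2 ^ h * (2 * M) := Nat.mul_le_mul_right _ hs.le
        _ = M * 2 ^ (h + 1) := by ring
    have e2 := Nat.le_of_mul_le_mul_right e1 (by positivity)
    have e3 : 2 * h ≤ 2 ^ (h + 1) := by
      have := (Nat.lt_two_pow_self (n := h)).le
      rw [pow_succ]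
      omega
    calc 2 * h * B ≤ 2 ^ (h + 1) * B := Nat.mul_le_mul_right _ e3
      _ = B * 2 ^ (h + 1) := mul_comm _ _
      _ ≤ M := e2
  have hG : G ≤ M + D * c := by omega
  have e4 : h * A ≤ h * G + h * B := by
    calc h * A ≤ h * (G + B) := Nat.mul_le_mul_left _ hsub
      _ = _ := by ring
  have e5 : h * G ≤ h * M + h * D * c := by
    calc h * G ≤ h * (M + D * c) := Nat.mul_le_mul_left _ hG
      _ = _ := by ring
  have e6 : 2 * (h * D * c) ≤ M := h3
  have e7 : 2 * (h * B) ≤ M := by
    calc 2 * (h * B) = 2 * h * B := by ring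
      _ ≤ M := hB
  have e8 : (h + 1) * M = h * M + M := by ring
  rw [e8]
  omega

/-! ### The projection -/

theorem junta_LK {K : Type} [Field K] {r : ℕ} {F : (Fin r → Bool) → Bool} (hF : Junta 1 F) :
    (fun y : V r => bi K (F fun i => decide (y i = 1))) ∈ LK K r 1 := by
  classical
  obtain ⟨A, hA, hdep⟩ := hF
  rcases A.eq_empty_or_nonempty with h0 | ⟨i, hi⟩
  · have e : (fun y : V r => bi K (F fun i => decide (y i = 1))) =
        fun _ => bi K (F fun _ => false) := by
      funext y
      congr 1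
      refine hdep _ _ fun l hl => ?_
      rw [h0] at hl
      simp at hl
    rw [e]
    exact LK_const _ _
  have hAi : ∀ l ∈ A, l = i := fun l hl => Finset.card_le_one.1 hA l hl i hi
  have e : (fun y : V r => bi K (F fun i => decide (y i = 1))) =
      (fun _ => bi K (F fun _ => false)) +
        (bi K (F fun _ => true) - bi K (F fun _ => false)) • mon K {i} := by
    funext y
    simp only [Pi.add_apply, Pi.smul_apply, smul_eq_mul, mon, Finset.prod_singleton, bit]
    by_cases hy : y i = 1
    · rw [if_pos hy, mul_one, add_sub_cancel]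
      congr 1
      refine hdep _ _ fun l hl => ?_
      rw [hAi l hl]
      simp [hy]
    · rw [if_neg hy, mul_zero, add_zero]
      congr 1
      refine hdep _ _ fun l hl => ?_
      rw [hAi l hl]
      simp [hy]
  rw [e]
  exact Submodule.add_mem _ (LK_const _ _) (Submodule.smul_mem _ _ (mon_mem _ (by simp)))

/-- the length of the padded codes -/
def LM (r q : ℕ) : ℕ := 8 * Pool.Agent.J6H43.KS.D (PM r q) + PM r q

theorem length_pad_mw (α : ℕ → Bool) (r q : ℕ) : (padD (mw α r q)).length = LM r q := by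
  rw [length_padD, length_mw]
  rfl

/-- a bit as an element of `Z/2` -/
def b2 (b : Bool) : ZMod 2 := if b = true then 1 else 0

theorem dec_b2 (b : Bool) : decide (b2 b = 1) = b := by cases b <;> decide

theorem bit_b2 {K : Type} [Field K] {L : ℕ} (F : Fin L → Bool) (j : Fin L) :
    bit K (fun j => b2 (F j)) j = bi K (F j) := by
  unfold bit bi
  have h := dec_b2 (F j)
  by_cases hF : F j = true
  · rw [if_pos hF, if_pos]
    show b2 (F j) = 1
    rw [hF]
    decide
  · rw [if_neg hF, if_neg]
    intro h1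
    apply hF
    rw [← h]
    exact decide_eq_true h1

/-- the code for the assignment `y` -/
def cw (r q : ℕ) (y : V r) : List Bool :=
  padD (mw (Pool.Agent.J6H43.KS.ext fun i => decide (y i = 1)) r q)

theorem length_cw (r q : ℕ) (y : V r) : (cw r q y).length = LM r q := length_pad_mw _ r q

/-- the projection -/
def proj (r q : ℕ) (y : V r) : V (LM r q) := fun j => b2 ((cw r q y).getD j false)

theorem proj_LK {K : Type} [Field K] (r q : ℕ) (j : Fin (LM r q)) :
    (fun y => bit K (proj r q y) j) ∈ LK K r 1 := by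
  have h := junta_LK (K := K) ((J1_pad_mw r q).2 (j : ℕ))
  have e : (fun y : V r => bit K (proj r q y) j) = fun y : V r =>
      bi K ((padD (mw (Pool.Agent.J6H43.KS.ext fun i => decide (y i = 1)) r q)).getD j false) := by
    funext y
    exact bit_b2 _ j
  rw [e]
  exact h

theorem word_b2 {L : ℕ} (F : Fin L → Bool) : word (fun j => b2 (F j)) = List.ofFn F := by
  unfold word
  refine congrArg List.ofFn (funext fun j => ?_)
  exact dec_b2 _

theorem word_proj (r q : ℕ) (y : V r) : word (proj r q y) = cw r q y :=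
  (word_b2 (fun j : Fin (LM r q) => (cw r q y).getD j false)).trans
    (ofFn_getD (cw r q y) (length_cw r q y))

theorem cnt_eq {r : ℕ} (y : V r) :
    cnt (Pool.Agent.J6H43.KS.ext fun i => decide (y i = 1)) r = (sp y).card := by
  have key : ∀ m ≤ r, cnt (Pool.Agent.J6H43.KS.ext fun i => decide (y i = 1)) m =
      ((sp y).filter fun i : Fin r => (i : ℕ) < m).card := by
    intro m
    induction m with
    | zero => intro _; simp [cnt]
    | succ m ih =>
      intro hm
      have e : ((sp y).filter fun i : Fin r => (i : ℕ) < m + 1) =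
          ((sp y).filter fun i : Fin r => (i : ℕ) < m) ∪
            (if y ⟨m, hm⟩ = 1 then {(⟨m, hm⟩ : Fin r)} else ∅) := by
        ext i
        simp only [sp, mem_filter, mem_univ, true_and, mem_union]
        constructor
        · rintro ⟨h1, h2⟩
          by_cases h3 : (i : ℕ) = m
          · right
            have h4 : i = ⟨m, hm⟩ := Fin.ext h3
            rw [h4] at h1
            rw [if_pos h1, h4]
            simp
          · left; exact ⟨h1, by omega⟩
        · rintro (⟨h1, h2⟩ | h1)
          · exact ⟨h1, by omega⟩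
          · split_ifs at h1 with h2
            · rw [mem_singleton] at h1
              rw [h1]
              exact ⟨h2, by simp⟩
            · simp at h1
      have e2 : Pool.Agent.J6H43.KS.ext (fun i => decide (y i = 1)) m =
          decide (y ⟨m, hm⟩ = 1) := by
        have : m < r := hm
        simp [Pool.Agent.J6H43.KS.ext, this]
      have hdis : Disjoint ((sp y).filter fun i : Fin r => (i : ℕ) < m)
          (if y ⟨m, hm⟩ = 1 then {(⟨m, hm⟩ : Fin r)} else ∅) := by
        rw [Finset.disjoint_left]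
        intro i hi hi2
        split_ifs at hi2 with h2
        · rw [mem_singleton] at hi2
          rw [mem_filter, hi2] at hi
          simp at hi
        · simp at hi2
      have e3 : cnt (Pool.Agent.J6H43.KS.ext fun i => decide (y i = 1)) (m + 1) =
          cnt (Pool.Agent.J6H43.KS.ext fun i => decide (y i = 1)) m +
            if Pool.Agent.J6H43.KS.ext (fun i => decide (y i = 1)) m = true then 1 else 0 := rfl
      rw [e, card_union_of_disjoint hdis, e3, ih (by omega), e2]
      congr 1
      by_cases h1 : y ⟨m, hm⟩ = 1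
      · rw [if_pos (decide_eq_true h1), if_pos h1, card_singleton]
      · rw [if_neg (by simpa using h1), if_neg h1, card_empty]
  rw [key r le_rfl]
  congr 1
  exact Finset.filter_true_of_mem fun i _ => i.2

end Pool.Agent.J6H12.MS
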